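import Pool.Agent.H.MP_fd63cb_lc.Core
import Pool.Agent.H.MP_fd63cb_lc.ZY

namespace Pool.Agent.Results.MP_fd63cb_lc.Yes

open Finset Pool.Agent.H.MP_7216ee_lc Pool.Agent.H.MP_fd63cb_lc

/-- upper semicomputable length function obeying the Kraft inequality -/
def Kraft (K : ℕ → ℕ) : Prop :=
  (∃ f : ℕ → ℕ → ℕ, Computable₂ f ∧ ∀ x, (∀ t, K x ≤ f x t) ∧ ∃ t, f x t = K x) ∧
    Summable (fun x => (1 / 2 : ℝ) ^ K x) ∧ ∑' x, (1 / 2 : ℝ) ^ K x ≤ 1

def Optimal (K : ℕ → ℕ) : Prop := Kraft K ∧ ∀ K', Kraft K' → ∃ c, ∀ x, K x ≤ K' x + c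

def code {n : ℕ} (S : Finset (Fin n)) (x : Fin n → ℕ) : ℕ :=
  Encodable.encode (((List.finRange n).filter (· ∈ S)).map x)

noncomputable def ent {α : Type} (Q : PMF α) : ENNReal :=
  ∑' a, ENNReal.ofReal (Real.negMulLog (Q a).toReal)

/-- linear information inequality -/
def Valid {n : ℕ} (a : Finset (Fin n) → ℚ) : Prop := ∀ P : PMF (Fin n → ℕ), P.support.Finite →
  0 ≤ ∑ S, (a S : ℝ) * (ent (P.map fun x (i : S) => x i)).toReal

def I (k : Finset (Fin 4) → ℕ) (X Y : Finset (Fin 4)) : ℤ := k X + k Y - k (X ∪ Y)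

def J (k : Finset (Fin 4) → ℕ) (X Y Z : Finset (Fin 4)) : ℤ :=
  k (X ∪ Z) + k (Y ∪ Z) - k (X ∪ Y ∪ Z) - k Z

/-- the Zhang-Yeung inequality with additive error `c` -/
def ZY (k : Finset (Fin 4) → ℕ) (c : ℤ) : Prop :=
  2 * I k {2} {3} ≤ I k {0} {1} + I k {0} {2, 3} + 3 * J k {2} {3} {0} + J k {2} {3} {1} + c

theorem prim_code {n : ℕ} (S : Finset (Fin n)) : Primrec (code S) := by
  refine Primrec.encode.comp ?_
  induction (List.finRange n).filter (· ∈ S) with
  | nil => exact Primrec.const []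
  | cons i l ih => exact Primrec.list_cons.comp (Primrec.fin_app.comp Primrec.id (Primrec.const i)) ih

theorem code_iff {n : ℕ} (S : Finset (Fin n)) (x y : Fin n → ℕ) :
    code S x = code S y ↔ (fun i : S => x i) = fun i : S => y i := by
  simp [code, funext_iff]

theorem E_G (v : ℕ → ℝ) (hv : ∀ l, 0 ≤ v l) (t : ℕ) (p : PMF ℕ)
    (hp : ∀ l, p l = if l < t then ENNReal.ofReal (v l) else 0) (Y : ℕ → ℕ) :
    (E p Y).toReal = -G v Y t := by
  have h2 : ∀ y, (F p Y y).toReal = m v Y t y := fun y => by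
    rw [F, tsum_eq_sum (s := range t) fun l hl => by simp [hp, show ¬ l < t by simpa using hl],
      ENNReal.toReal_sum fun l _ => by split_ifs; exacts [p.apply_ne_top l, ENNReal.zero_ne_top]]
    refine sum_congr rfl fun l hl => ?_
    by_cases c : y = Y l
    · simp [c, hp, mem_range.1 hl, hv]
    · simp [c, Ne.symm c]
  rw [E, tsum_eq_sum (s := range t) fun l hl => by simp [hp, show ¬ l < t by simpa using hl],
    ENNReal.toReal_sum (f := fun l => p l * L (F p Y (Y l))) fun l _ =>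
      ENNReal.mul_ne_top (p.apply_ne_top l) ENNReal.ofReal_ne_top, G, ← sum_neg_distrib]
  refine sum_congr rfl fun l hl => ?_
  rw [ENNReal.toReal_mul, L, ENNReal.toReal_ofReal, h2, hp, if_pos (mem_range.1 hl),
    ENNReal.toReal_ofReal (hv l), mul_neg]
  refine neg_nonneg.2 (Real.log_nonpos ENNReal.toReal_nonneg ?_)
  simpa using ENNReal.toReal_mono ENNReal.one_ne_top (F_le p Y (Y l))

theorem split {α : Type} [Fintype α] (z : α → ℤ) (F : α → ℝ) : ∑ S, z S * F S =
    ∑ j : Σ S, Fin (z S).toNat, F j.1 - ∑ i : Σ S, Fin (-z S).toNat, F i.1 := by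
  simp only [Fintype.sum_sigma, sum_const, card_univ, Fintype.card_fin, nsmul_eq_mul,
    ← sum_sub_distrib, ← sub_mul]
  refine sum_congr rfl fun S _ => ?_
  congr 1
  exact_mod_cast (Int.toNat_sub_toNat_neg (z S)).symm

theorem main (K : ℕ → ℕ) (hK : Optimal K) {n : ℕ} (a : Finset (Fin n) → ℚ) (ha : Valid a) :
    ∃ c : ℝ, ∀ x, -c ≤ ∑ S, (a S : ℝ) * K (code S x) := by
  obtain ⟨D, z, hD, hz⟩ : ∃ (D : ℝ) (z : Finset (Fin n) → ℤ), 0 < D ∧ ∀ S, (a S : ℝ) = D * z S := by
    refine ⟨(∏ S, ((a S).den : ℝ))⁻¹, fun S => (a S).num * ∏ T ∈ univ.erase S, (a T).den,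
      by positivity, fun S => ?_⟩
    rw [← mul_prod_erase _ _ (mem_univ S), Rat.cast_def]
    push_cast
    field_simp
  simp only [Valid, hz, mul_assoc, ← mul_sum, split] at ha ⊢
  rcases isEmpty_or_nonempty (Σ S, Fin (-z S).toNat) with c | c
  · exact ⟨0, fun x => by simp only [univ_eq_empty (α := Σ S, Fin (-z S).toNat), sum_empty,
      sub_zero, neg_zero]; positivity⟩
  obtain ⟨c, hc⟩ := core (ι := Σ S, Fin (-z S).toNat) (κ := Σ S, Fin (z S).toNat)
    (fun i => code i.1) (fun i => code i.1) (fun _ => prim_code _) (fun _ => prim_code _)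
    (fun x t v hv h1 => by
      let p : PMF ℕ := PMF.ofFinset (fun l => if l < t then ENNReal.ofReal (v l) else 0) (range t)
        (by rw [sum_congr rfl fun l hl => if_pos (mem_range.1 hl),
          ← ENNReal.ofReal_sum_of_nonneg fun l _ => hv l, h1, ENNReal.ofReal_one])
        fun l hl => if_neg (by simpa using hl)
      have h2 : ∀ S : Finset (Fin n), (ent ((p.map x).map fun x (i : S) => x i)).toReal = -G v (code S ∘ x) t := by
        intro S
        rw [PMF.map_comp, ent, ent_eq, ← E_G v hv t p fun _ => rfl]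
        congr 1
        exact le_antisymm (E_le _ fun _ _ _ _ e => (code_iff S _ _).1 e)
          (E_le _ fun _ _ _ _ e => (code_iff S _ _).2 e)
      have := ha (p.map x) (by
        rw [PMF.support_map, PMF.support_ofFinset]
        exact ((finite_toSet _).inter_of_left _).image _)
      simp only [h2, sum_neg_distrib] at this
      linarith [nonneg_of_mul_nonneg_right this hD]) K hK.1 hK.2
  refine ⟨D * c, fun x => ?_⟩
  have : ∑ i : Σ S, Fin (-z S).toNat, (K (code i.1 x) : ℝ) ≤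
    ∑ j : Σ S, Fin (z S).toNat, (K (code j.1 x) : ℝ) + c := by exact_mod_cast hc x
  rw [← mul_neg]
  exact mul_le_mul_of_nonneg_left (by linarith) hD.le

def co (S : Finset (Fin 4)) : ℚ :=
  if S = {0} then -1 else if S = {2} then -2 else if S = {3} then -2
  else if S = {0, 1} then -1 else if S = {0, 2} then 3 else if S = {0, 3} then 3
  else if S = {1, 2} then 1 else if S = {1, 3} then 1 else if S = {2, 3} then 3
  else if S = {0, 2, 3} then -4 else if S = {1, 2, 3} then -1 else 0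

theorem co_sum (f : Finset (Fin 4) → ℝ) : ∑ S, (co S : ℝ) * f S =
    -f {0} - 2 * f {2} - 2 * f {3} - f {0, 1} + 3 * f {0, 2} + 3 * f {0, 3} + f {1, 2} +
      f {1, 3} + 3 * f {2, 3} - 4 * f {0, 2, 3} - f {1, 2, 3} := by
  have hK : (univ : Finset (Finset (Fin 4))) = {∅, {0}, {1}, {2}, {3}, {0, 1}, {0, 2}, {0, 3},
    {1, 2}, {1, 3}, {2, 3}, {0, 1, 2}, {0, 1, 3}, {0, 2, 3}, {1, 2, 3}, {0, 1, 2, 3}} := by
    decide +kernel
  rw [hK]
  repeat rw [Finset.sum_insert (by decide)]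
  rw [Finset.sum_singleton]
  simp +decide only [co, if_true, if_false]
  push_cast
  ring

theorem result (K : ℕ → ℕ) (hK : Optimal K) :
    (∃ c : ℤ, ∀ x : Fin 4 → ℕ, ZY (fun S => K (code S x)) c) ∧
    ∀ (n : ℕ) (a : Finset (Fin n) → ℚ), Valid a →
      ∃ c : ℝ, ∀ x : Fin n → ℕ, -c ≤ ∑ S, (a S : ℝ) * K (code S x) := by
  refine ⟨?_, fun n => main K hK⟩
  obtain ⟨c, hc⟩ := main K hK co fun P hP => by
    obtain ⟨f, hf⟩ : ∃ f : Finset (Fin 4) → ℝ, ∀ S : Finset (Fin 4),
      (ent (P.map fun x (i : S) => x i)).toReal = f S := ⟨_, fun _ => rfl⟩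
    simp only [hf, co_sum]
    exact zy P hP f fun S => by
      rw [← hf, ent, ent_eq]
      rfl
  refine ⟨⌈c⌉, fun x => ?_⟩
  have := hc x
  rw [co_sum fun S => K (code S x)] at this
  have h1 := Int.le_ceil c
  simp only [ZY, I, J]
  rw [show ({2} ∪ {3} : Finset (Fin 4)) = {2, 3} by decide,
    show ({0} ∪ {1} : Finset (Fin 4)) = {0, 1} by decide,
    show ({0} ∪ {2, 3} : Finset (Fin 4)) = {0, 2, 3} by decide,
    show ({2} ∪ {0} : Finset (Fin 4)) = {0, 2} by decide,
    show ({3} ∪ {0} : Finset (Fin 4)) = {0, 3} by decide,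
    show ({2, 3} ∪ {0} : Finset (Fin 4)) = {0, 2, 3} by decide,
    show ({2} ∪ {1} : Finset (Fin 4)) = {1, 2} by decide,
    show ({3} ∪ {1} : Finset (Fin 4)) = {1, 3} by decide,
    show ({2, 3} ∪ {1} : Finset (Fin 4)) = {1, 2, 3} by decide, ← Int.cast_le (R := ℝ)]
  push_cast
  linarith

end Pool.Agent.Results.MP_fd63cb_lc.Yes
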